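import Pool.Agent.L7h4.SF.Stm

set_option autoImplicit false

namespace Pool.Agent.L7h37.SF

open Matrix Pool.Agent.L7h4.SF

/-- the permutation matrix of `σ` -/
def PM {n : ℕ} (σ : Fin n → Fin n) : Matrix (Fin n) (Fin n) ℂ :=
  Matrix.of fun i j => if j = σ i then 1 else 0

theorem PM_mul {n : ℕ} (σ : Fin n → Fin n) (M : Matrix (Fin n) (Fin n) ℂ) (i j : Fin n) :
    (PM σ * M) i j = M (σ i) j := by
  rw [Matrix.mul_apply]
  simp [PM]

theorem vec_PM {n : ℕ} (σ : Fin n → Fin n) (hσ : ∀ i, σ (σ i) = i) (v : Fin n → ℂ) (j : Fin n) :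
    (v ᵥ* PM σ) j = v (σ j) := by
  rw [Matrix.vecMul, dotProduct]
  have h : ∀ i, v i * PM σ i j = if i = σ j then v i else 0 := by
    intro i
    have : (j = σ i) ↔ (i = σ j) := by
      constructor
      · rintro rfl; exact (hσ i).symm
      · rintro rfl; exact (hσ j).symm
    simp [PM, this]
  rw [Finset.sum_congr rfl fun i _ => h i]
  simp

theorem PM_sq {n : ℕ} (σ : Fin n → Fin n) (hσ : ∀ i, σ (σ i) = i) : PM σ * PM σ = 1 := by
  ext i j
  rw [PM_mul]
  simp only [PM, Matrix.of_apply, hσ, Matrix.one_apply]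
  by_cases h : i = j
  · simp [h]
  · simp [h, Ne.symm h]

theorem PM_diag {n : ℕ} (σ : Fin n → Fin n) (a : Fin n → ℂ) (hσ : ∀ i, σ (σ i) = i) :
    PM σ * Matrix.diagonal a * PM σ = Matrix.diagonal (fun i => a (σ i)) := by
  ext i j
  rw [Matrix.mul_assoc, PM_mul]
  rw [Matrix.diagonal_mul]
  simp only [PM, Matrix.of_apply, hσ, Matrix.diagonal_apply]
  by_cases h : i = j
  · simp [h]
  · simp [h, Ne.symm h]

theorem s_LIN : S_LIN := by
  intro n l a σ τ hl hinj ha hσa hτa
  have hσ : ∀ i, σ (σ i) = i := by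
    intro i
    apply hinj
    have h1 := hσa i
    have h2 := hσa (σ i)
    have h3 : a (σ (σ i)) * a (σ i) = a i * a (σ i) := by rw [h2, mul_comm, h1]
    exact mul_right_cancel₀ (ha (σ i)) h3
  have hτ : ∀ i, τ (τ i) = i := by
    intro i
    apply hinj
    have h1 := hτa i
    have h2 := hτa (τ i)
    have h3 : a (τ (τ i)) * a (τ i) = a i * a (τ i) := by rw [h2, mul_comm (a i), h1]
    exact mul_right_cancel₀ (ha (τ i)) h3
  have hσinv : ∀ i, a (σ i) = (a i)⁻¹ := fun i => eq_inv_of_mul_eq_one_left (hσa i)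
  set b : Fin n → ℂ := fun i => l * (a i)⁻¹ with hb
  have hbτ : ∀ i, b (τ i) * b i = 1 := by
    intro i
    have h1 := hτa i
    simp only [hb]
    have h2 := ha i
    have h3 := ha (τ i)
    field_simp
    rw [← h1]
  have hPσ := PM_sq σ hσ
  have hPτ := PM_sq τ hτ
  have hDa : Matrix.diagonal (fun i => a (σ i)) * Matrix.diagonal a = 1 := by
    rw [Matrix.diagonal_mul_diagonal]
    simp only [hσa]
    exact Matrix.diagonal_one
  have hDb : Matrix.diagonal (fun i => b (τ i)) * Matrix.diagonal b = 1 := by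
    rw [Matrix.diagonal_mul_diagonal]
    simp only [hbτ]
    exact Matrix.diagonal_one
  have hc3 : ∀ j, l * (1 + b (τ j)) * b j = l * (1 + b j) := by
    intro j
    have := hbτ j
    calc l * (1 + b (τ j)) * b j = l * (b j + b (τ j) * b j) := by ring
      _ = l * (1 + b j) := by rw [this]; ring
  have hL01 : (-PM σ) * ((-PM σ) * Matrix.diagonal a) = Matrix.diagonal a := by
    rw [← Matrix.mul_assoc, neg_mul_neg, hPσ, Matrix.one_mul]
  have hL10 : ((-PM σ) * Matrix.diagonal a) * (-PM σ) = Matrix.diagonal (fun i => (a i)⁻¹) := by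
    rw [Matrix.neg_mul, neg_mul_neg, PM_diag σ a hσ]
    simp only [hσinv]
  refine ⟨![-PM σ, (-PM σ) * Matrix.diagonal a, -PM τ, (-PM τ) * Matrix.diagonal b],
    ![fun _ => 1, 0, fun _ => l, fun i => l * (1 + b i)], ?_, ?_, ?_, rfl, ?_, ?_⟩
  · intro j
    fin_cases j
    · show (-PM σ) * (-PM σ) = 1
      rw [neg_mul_neg, hPσ]
    · show ((-PM σ) * Matrix.diagonal a) * ((-PM σ) * Matrix.diagonal a) = 1
      rw [← Matrix.mul_assoc, hL10]
      simp only [← hσinv]
      exact hDa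
    · show (-PM τ) * (-PM τ) = 1
      rw [neg_mul_neg, hPτ]
    · show ((-PM τ) * Matrix.diagonal b) * ((-PM τ) * Matrix.diagonal b) = 1
      rw [← Matrix.mul_assoc, Matrix.neg_mul, neg_mul_neg, PM_diag τ b hτ]
      exact hDb
  · exact hL01
  · show (-PM σ) * ((-PM σ) * Matrix.diagonal a) * (-PM τ) * ((-PM τ) * Matrix.diagonal b) = l • 1
    rw [hL01, Matrix.mul_assoc, ← Matrix.mul_assoc (-PM τ), neg_mul_neg, hPτ, Matrix.one_mul,
      Matrix.diagonal_mul_diagonal]
    have : (fun i => a i * b i) = fun _ => l := by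
      funext i
      simp only [hb]
      have := ha i
      field_simp
    rw [this]
    ext i j
    by_cases h : i = j
    · simp [h]
    · simp [h]
  · intro j
    fin_cases j
    · show (fun _ => (1:ℂ)) ᵥ* (-PM σ) = -(fun _ => (1:ℂ))
      rw [Matrix.vecMul_neg]
      congr 1
      funext j
      rw [vec_PM σ hσ]
    · show (0 : Fin n → ℂ) ᵥ* _ = -(0 : Fin n → ℂ)
      simp
    · show (fun _ => l) ᵥ* (-PM τ) = -(fun _ => l)
      rw [Matrix.vecMul_neg]
      congr 1
      funext j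
      rw [vec_PM τ hτ]
    · show (fun i => l * (1 + b i)) ᵥ* ((-PM τ) * Matrix.diagonal b) = -(fun i => l * (1 + b i))
      rw [Matrix.neg_mul, Matrix.vecMul_neg, ← Matrix.vecMul_vecMul]
      congr 1
      funext j
      rw [Matrix.vecMul_diagonal, vec_PM τ hτ]
      exact hc3 j
  · show (fun _ => (1:ℂ)) + (0 : Fin n → ℂ) ᵥ* (-PM σ) +
      (fun _ => l) ᵥ* (((-PM σ) * Matrix.diagonal a) * (-PM σ)) +
      (fun i => l * (1 + b i)) ᵥ* ((-PM τ) * ((-PM σ) * Matrix.diagonal a) * (-PM σ)) = 0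
    rw [Matrix.mul_assoc (-PM τ), hL10, ← Matrix.vecMul_vecMul]
    funext j
    simp only [Pi.add_apply, Pi.neg_apply, Pi.zero_apply, Matrix.zero_vecMul,
      Matrix.vecMul_diagonal, Matrix.vecMul_neg, vec_PM τ hτ]
    have h1 := hbτ j
    have h2 : l * (a j)⁻¹ = b j := rfl
    have h3 : l * (1 + b (τ j)) * (a j)⁻¹ = b j + b (τ j) * b j := by
      rw [← h2]; ring
    have h4 : l * (1 + b (τ j)) * (a j)⁻¹ = l * (a j)⁻¹ + 1 := by rw [h3, h1, h2]
    linear_combination -h4

end Pool.Agent.L7h37.SF
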